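import Mathlib
import Pool.Agent.H74.R45.Wa

set_option autoImplicit false
open Finset

/-!
# The weights as analytic functions of the small parameter `t = exp (2 i u / 3)`

`u → + i ∞` is `t → 0`; `a = wa u = aT t`, `b = wa (u + π / 2) = bT t`.
-/

namespace Pool.Agent.H40.R45

open Pool.Agent.Q1 Pool.Agent.H64.Q1 Pool.Agent.H74.R45 Metric

/-- the weight `a = wa u` as a function of `t = exp (2 i u / 3)` -/
noncomputable def aT (t : ℂ) : ℂ := (1 - t) / (w6⁻¹ - t * w6)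
/-- the weight `b = wa (u + π / 2)` as a function of `t = exp (2 i u / 3)` -/
noncomputable def bT (t : ℂ) : ℂ := aT (w6 * t)
/-- `a - w6` -/
noncomputable def kapT (t : ℂ) : ℂ := aT t - w6
/-- `1 - b (1 - b)` -/
noncomputable def lamT (t : ℂ) : ℂ := 1 - bT t * (1 - bT t)
/-- the inverse of the prefactor of `potential_wa` -/
noncomputable def rT (t : ℂ) : ℂ := t * w6⁻¹

lemma w6_ne : w6 ≠ 0 := by
  rw [Pool.Agent.H74.R45.w6_exp]; exact Complex.exp_ne_zero _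

lemma w6_sq : w6 ^ 2 = w6 - 1 := by
  have h3 : Real.sqrt 3 * Real.sqrt 3 = 3 := Real.mul_self_sqrt (by norm_num)
  rw [sq]
  apply Complex.ext
  · simp only [w6, Complex.mul_re, Complex.sub_re, Complex.one_re]; nlinarith
  · simp only [w6, Complex.mul_im, Complex.sub_im, Complex.one_im]; ring

lemma w6_inv : w6⁻¹ = 1 - w6 := by
  rw [inv_eq_iff_eq_inv, eq_comm, inv_eq_iff_eq_inv, eq_comm]
  refine eq_comm.1 (eq_inv_of_mul_eq_one_left ?_)
  have := w6_sq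
  linear_combination -this

lemma norm_w6 : ‖w6‖ = 1 := by
  rw [Pool.Agent.H74.R45.w6_exp]; exact Complex.norm_exp_ofReal_mul_I _

lemma norm_w6_inv : ‖w6⁻¹‖ = 1 := by rw [norm_inv, norm_w6, inv_one]

/-! ### (a) the weights -/

lemma exp_half (u : ℂ) : Complex.exp (2 * Complex.I * u / 3) = Complex.exp (u / 3 * Complex.I) ^ 2 := by
  rw [← Complex.exp_nat_mul]; congr 1; push_cast; ring

lemma wa_eq (u : ℂ) (h : Complex.sin ((u + Real.pi) / 3) ≠ 0) :
    w6⁻¹ - Complex.exp (2 * Complex.I * u / 3) * w6 ≠ 0 ∧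
      wa u = aT (Complex.exp (2 * Complex.I * u / 3)) := by
  set s := Complex.exp (u / 3 * Complex.I) with hs
  have hs0 : s ≠ 0 := Complex.exp_ne_zero _
  have e0 : Complex.exp (2 * Complex.I * u / 3) = s ^ 2 := exp_half u
  have e1 : Complex.sin (u / 3) = (s⁻¹ - s) * Complex.I / 2 := by
    rw [Complex.sin, hs, ← Complex.exp_neg]; congr 3; ring_nf
  have e2 : Complex.sin ((u + Real.pi) / 3) = ((s * w6)⁻¹ - s * w6) * Complex.I / 2 := by
    rw [Complex.sin, hs, Pool.Agent.H74.R45.w6_exp, ← Complex.exp_add, ← Complex.exp_neg]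
    congr 3 <;> congr 1 <;> push_cast <;> ring
  have e3 : w6⁻¹ - s ^ 2 * w6 = s * ((s * w6)⁻¹ - s * w6) := by
    rw [mul_inv, mul_sub, ← mul_assoc, mul_inv_cancel₀ hs0]; ring
  have hne : (s * w6)⁻¹ - s * w6 ≠ 0 := by
    intro h0
    rw [e2, h0] at h
    simp at h
  refine ⟨by rw [e0, e3]; exact mul_ne_zero hs0 hne, ?_⟩
  unfold wa aT
  rw [e0, e3, e1, e2]
  have e4 : (1 : ℂ) - s ^ 2 = s * (s⁻¹ - s) := by
    rw [mul_sub, mul_inv_cancel₀ hs0]; ring
  rw [e4, mul_div_mul_left _ _ hs0, div_div_div_cancel_right₀ (two_ne_zero),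
    mul_div_mul_right _ _ Complex.I_ne_zero]

/-- the weight `a` -/
theorem wa_aT (u : ℂ) (h : Complex.sin ((u + Real.pi) / 3) ≠ 0) :
    wa u = aT (Complex.exp (2 * Complex.I * u / 3)) := (wa_eq u h).2

/-- the weight `b` -/
theorem wa_bT (u : ℂ) (h : Complex.sin ((u + Real.pi / 2 + Real.pi) / 3) ≠ 0) :
    wa (u + Real.pi / 2) = bT (Complex.exp (2 * Complex.I * u / 3)) := by
  rw [(wa_eq _ h).2, bT]
  congr 1
  rw [Pool.Agent.H74.R45.w6_exp, ← Complex.exp_add]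
  congr 1
  push_cast
  ring

/-- the prefactor of `potential_wa` -/
theorem rT_mul (u : ℂ) : rT (Complex.exp (2 * Complex.I * u / 3)) *
    Complex.exp (-(2 * Complex.I / 3) * (u - Real.pi / 2)) = 1 := by
  unfold rT
  rw [Pool.Agent.H74.R45.w6_exp, ← Complex.exp_neg, ← Complex.exp_add, ← Complex.exp_add, ← Complex.exp_zero]
  congr 1
  push_cast
  ring

/-! ### (b) bounds on the ball of radius `1 / 2` -/

lemma den_lb {t : ℂ} (ht : t ∈ ball (0 : ℂ) (1 / 2)) : 1 / 2 ≤ ‖w6⁻¹ - t * w6‖ := by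
  rw [mem_ball_zero_iff] at ht
  have h1 := norm_sub_norm_le w6⁻¹ (t * w6)
  rw [norm_mul, norm_w6, norm_w6_inv, mul_one] at h1
  linarith

lemma den_ne' {t : ℂ} (ht : t ∈ ball (0 : ℂ) (1 / 2)) : w6⁻¹ - t * w6 ≠ 0 := by
  intro h0
  have := den_lb ht
  rw [h0, norm_zero] at this
  linarith

lemma w6_mem {t : ℂ} (ht : t ∈ ball (0 : ℂ) (1 / 2)) : w6 * t ∈ ball (0 : ℂ) (1 / 2) := by
  rw [mem_ball_zero_iff] at ht ⊢
  rwa [norm_mul, norm_w6, one_mul]

theorem aT_diff : DifferentiableOn ℂ aT (ball 0 (1 / 2)) := by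
  unfold aT
  exact ((differentiable_const _).sub differentiable_id).differentiableOn.fun_div
    ((differentiable_const _).sub (differentiable_id.mul_const _)).differentiableOn
    fun t ht => den_ne' ht

theorem bT_diff : DifferentiableOn ℂ bT (ball 0 (1 / 2)) :=
  aT_diff.comp (differentiable_id.const_mul _).differentiableOn fun _ ht => w6_mem ht

theorem kapT_diff : DifferentiableOn ℂ kapT (ball 0 (1 / 2)) := aT_diff.sub_const _

theorem lamT_diff : DifferentiableOn ℂ lamT (ball 0 (1 / 2)) :=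
  (bT_diff.fun_mul (bT_diff.const_sub 1)).const_sub 1

theorem rT_diff : DifferentiableOn ℂ rT (ball 0 (1 / 2)) :=
  (differentiable_id.mul_const _).differentiableOn

lemma kapT_eq {t : ℂ} (ht : t ∈ ball (0 : ℂ) (1 / 2)) :
    kapT t = t * (w6 ^ 2 - 1) / (w6⁻¹ - t * w6) := by
  unfold kapT aT
  rw [eq_div_iff (den_ne' ht), sub_mul, div_mul_cancel₀ _ (den_ne' ht), mul_sub,
    mul_inv_cancel₀ w6_ne]
  ring

lemma norm_kapT4 {t : ℂ} (ht : t ∈ ball (0 : ℂ) (1 / 2)) : ‖kapT t‖ ≤ 4 * ‖t‖ := by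
  rw [kapT_eq ht, norm_div, norm_mul, div_le_iff₀ (by linarith [den_lb ht])]
  have h1 : ‖w6 ^ 2 - 1‖ ≤ 2 := by
    refine (norm_sub_le _ _).trans ?_
    rw [norm_pow, norm_w6, one_pow, norm_one]; norm_num
  have h2 := den_lb ht
  nlinarith [norm_nonneg t]

theorem norm_kapT {t : ℂ} (ht : t ∈ ball (0 : ℂ) (1 / 2)) : ‖kapT t‖ ≤ 8 * ‖t‖ :=
  (norm_kapT4 ht).trans (by linarith [norm_nonneg t])

lemma bT_eq (t : ℂ) : bT t = w6 + kapT (w6 * t) := by unfold kapT bT; ring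

theorem norm_lamT {t : ℂ} (ht : t ∈ ball (0 : ℂ) (1 / 2)) : ‖lamT t‖ ≤ 16 * ‖t‖ := by
  have h1 : lamT t = kapT (w6 * t) * (2 * w6 - 1 + kapT (w6 * t)) := by
    unfold lamT
    rw [bT_eq]
    linear_combination w6_sq
  have h2 := norm_kapT4 (w6_mem ht)
  rw [norm_mul, norm_w6, one_mul] at h2
  rw [mem_ball_zero_iff] at ht
  have h3 : ‖2 * w6 - 1 + kapT (w6 * t)‖ ≤ 4 := by
    have h4 : ‖2 * w6 - 1‖ ≤ 2 := by
      rw [show (2 * w6 - 1 : ℂ) = (Real.sqrt 3 : ℝ) * Complex.I by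
        unfold w6; apply Complex.ext <;> simp <;> ring]
      rw [norm_mul, Complex.norm_I, mul_one, Complex.norm_real, Real.norm_eq_abs,
        abs_of_nonneg (Real.sqrt_nonneg _)]
      rw [Real.sqrt_le_left (by norm_num)]; norm_num
    exact (norm_add_le _ _).trans (by linarith)
  rw [h1, norm_mul]
  have := mul_le_mul h2 h3 (norm_nonneg _) (by positivity)
  linarith

lemma norm_aT {t : ℂ} (ht : t ∈ ball (0 : ℂ) (1 / 2)) : ‖aT t‖ ≤ 3 := by
  unfold aT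
  rw [norm_div, div_le_iff₀ (by linarith [den_lb ht])]
  have h2 := den_lb ht
  rw [mem_ball_zero_iff] at ht
  have h1 : ‖1 - t‖ ≤ 3 / 2 := by
    refine (norm_sub_le _ _).trans ?_
    rw [norm_one]; linarith
  linarith

theorem norm_bT {t : ℂ} (ht : t ∈ ball (0 : ℂ) (1 / 2)) : ‖bT t‖ ≤ 4 :=
  (norm_aT (w6_mem ht)).trans (by norm_num)

theorem norm_one_sub_bT {t : ℂ} (ht : t ∈ ball (0 : ℂ) (1 / 2)) : ‖1 - bT t‖ ≤ 4 := by
  refine (norm_sub_le _ _).trans ?_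
  have := norm_aT (w6_mem ht)
  rw [norm_one]
  unfold bT
  linarith

/-! ### (c) the monomials -/

/-- the index set: powers of `kap` and `lam`, states of the two corner tiles -/
abbrev Idx : Type := ℕ × ℕ × Bool × Bool

/-- the order -/
def deg (n : Idx) : ℕ := n.1 + n.2.1

/-- the monomials -/
noncomputable def mn (n : Idx) (t : ℂ) : ℂ :=
  rT t * kapT t ^ n.1 * lamT t ^ n.2.1 * (if n.2.2.1 then bT t else 1 - bT t) *
    (if n.2.2.2 then bT t else 1 - bT t)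

/-- the constants -/
noncomputable def BB (n : Idx) : ℝ := 8 ^ n.1 * 16 ^ n.2.1 * 16

theorem mn_diff (n : Idx) : DifferentiableOn ℂ (mn n) (ball 0 (1 / 2)) := by
  have h : ∀ b : Bool, DifferentiableOn ℂ (fun t => if b then bT t else 1 - bT t)
      (ball 0 (1 / 2)) := by
    intro b
    cases b
    · simpa using bT_diff.const_sub 1
    · simpa using bT_diff
  exact (((rT_diff.fun_mul (kapT_diff.fun_pow n.1)).fun_mul (lamT_diff.fun_pow n.2.1)).fun_mul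
    (h n.2.2.1)).fun_mul (h n.2.2.2)

theorem mn_le (n : Idx) {t : ℂ} (ht : t ∈ ball (0 : ℂ) (1 / 2)) :
    ‖mn n t‖ ≤ BB n * ‖t‖ ^ deg n := by
  have h : ∀ b : Bool, ‖(if b then bT t else 1 - bT t : ℂ)‖ ≤ 4 := by
    intro b
    cases b
    · simpa using norm_one_sub_bT ht
    · simpa using norm_bT ht
  have h1 : ‖rT t‖ ≤ 1 := by
    unfold rT
    rw [norm_mul, norm_w6_inv, mul_one]
    rw [mem_ball_zero_iff] at ht
    linarith
  have h2 : ‖kapT t‖ ^ n.1 ≤ (8 * ‖t‖) ^ n.1 := pow_le_pow_left₀ (norm_nonneg _) (norm_kapT ht) _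
  have h3 : ‖lamT t‖ ^ n.2.1 ≤ (16 * ‖t‖) ^ n.2.1 :=
    pow_le_pow_left₀ (norm_nonneg _) (norm_lamT ht) _
  unfold mn BB deg
  rw [norm_mul, norm_mul, norm_mul, norm_mul, norm_pow, norm_pow]
  calc ‖rT t‖ * ‖kapT t‖ ^ n.1 * ‖lamT t‖ ^ n.2.1 * ‖(if n.2.2.1 then bT t else 1 - bT t : ℂ)‖ *
        ‖(if n.2.2.2 then bT t else 1 - bT t : ℂ)‖
      ≤ 1 * (8 * ‖t‖) ^ n.1 * (16 * ‖t‖) ^ n.2.1 * 4 * 4 := by
        gcongr
        · exact h _
        · exact h _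
    _ = _ := by rw [mul_pow, mul_pow, pow_add]; ring

theorem deg_fin (k : ℕ) : {n : Idx | deg n ≤ k}.Finite := by
  refine Set.Finite.subset (s := Set.Iic k ×ˢ (Set.Iic k ×ˢ (Set.univ : Set (Bool × Bool)))) ?_ ?_
  · exact (Set.finite_Iic k).prod ((Set.finite_Iic k).prod Set.finite_univ)
  · rintro ⟨m, l, s⟩ hn
    simp only [deg, Set.mem_ofPred_eq] at hn
    exact ⟨by simp only [Set.mem_Iic]; omega, by simp only [Set.mem_Iic]; omega, trivial⟩

/-! ### (d) the function `V` -/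

variable {w h : ℤ}

/-- increments of the difference of the two potentials, from the corners above the line -/
theorem V_eq {O : Out w h} (u : ℂ) (h1 : Complex.sin ((u + Real.pi) / 3) ≠ 0)
    (h2 : Complex.sin ((u + Real.pi / 2 + Real.pi) / 3) ≠ 0)
    (S : Same O (wa u) (wa (u + Real.pi / 2)))
    {Hl Hu : ℤ → ℤ → ℂ} (hl : Pot (FJ O (wa u) (wa (u + Real.pi / 2)) 0) Hl 0 w 0 h)
    (hu : Pot (FJ O (wa u) (wa (u + Real.pi / 2)) h) Hu 0 w (-1) (h - 1))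
    {t : ℂ} (ht : t = Complex.exp (2 * Complex.I * u / 3)) {j x j' x' : ℤ}
    (hj : 0 ≤ j ∧ j ≤ h ∧ j % 2 = 0) (hx : 0 ≤ x ∧ x ≤ w)
    (hj' : 0 ≤ j' ∧ j' ≤ h ∧ j' % 2 = 0) (hx' : 0 ≤ x' ∧ x' ≤ w) :
    (Hl x j - Hu x (j - 1)) - (Hl x' j' - Hu x' (j' - 1)) =
      rT t * (sg x * FJ O (aT t) (bT t) j (ve (x, j - 1)) -
        sg x' * FJ O (aT t) (bT t) j' (ve (x', j' - 1))) := by
  obtain ⟨C, hC⟩ := potential_wa u h1 h2 S hl hu
  have e1 := hC j x hj.1 hj.2.1 hj.2.2 hx.1 hx.2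
  have e2 := hC j' x' hj'.1 hj'.2.1 hj'.2.2 hx'.1 hx'.2
  rw [wa_aT u h1, wa_bT u h2, ← ht] at e1 e2
  have e3 := rT_mul u
  rw [← ht] at e3
  rw [e1, e2]
  linear_combination (-((Hl x j - Hu x (j - 1)) - (Hl x' j' - Hu x' (j' - 1)))) * e3

end Pool.Agent.H40.R45
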