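import Mathlib
import Pool.Agent.H40.R45.Wts
import Pool.Agent.Q1.M6b.Taylor

set_option autoImplicit false
open Finset

/-!
# The function `V` of chapter (AB) as a function of `z`, `t = z R ^ (-2/3)`

`VV O R j x j' x' z = R ^ (-2/3) * rT t * (sg x * F_j (x, j - 1) - sg x' * F_j' (x', j' - 1))`, with the
weights `a = aT t`, `b = bT t`.  For `t = exp (2 i u / 3)` it is the increment of `Hl - Hu`.
-/

namespace Pool.Agent.H40.R45

open Pool.Agent.Q1 Pool.Agent.H64.Q1 Pool.Agent.H74.R45 Metric Filter Topology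

variable {w h : ℤ}

/-- the weight of the states of the two corner tiles -/
noncomputable def wtc (s : Bool × Bool) (t : ℂ) : ℂ :=
  (if s.1 then bT t else 1 - bT t) * (if s.2 then bT t else 1 - bT t)

lemma mn_eq (n : Idx) (t : ℂ) :
    mn n t = rT t * (kapT t ^ n.1 * lamT t ^ n.2.1 * wtc n.2.2 t) := by
  unfold mn wtc; ring

/-- expansion of the increment at the corner `(x, j - 1)` -/
def Expd (O : Out w h) (j x : ℤ) (I : Finset Idx) (HH : Idx → ℂ) : Prop :=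
  ∀ t : ℂ, FJ O (aT t) (bT t) j (ve (x, j - 1)) =
    ∑ n ∈ I, kapT t ^ n.1 * lamT t ^ n.2.1 * wtc n.2.2 t * HH n

/-- the index set may be enlarged by indices with zero coefficient -/
lemma Expd.mono {O : Out w h} {j x : ℤ} {I I' : Finset Idx} {HH : Idx → ℂ}
    (H : Expd O j x I HH) (hI : I ⊆ I') (h0 : ∀ n ∈ I', n ∉ I → HH n = 0) :
    Expd O j x I' HH := by
  intro t
  rw [H t]
  exact sum_subset hI fun n h1 h2 => by rw [h0 n h1 h2, mul_zero]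

/-- the function `V` (normalised by `R ^ (-2/3)`) as a function of `z`, `t = z R ^ (-2/3)` -/
noncomputable def VV (O : Out w h) (R : ℝ) (j x j' x' : ℤ) (z : ℂ) : ℂ :=
  (R ^ (-(2 / 3) : ℝ) : ℝ) * (rT (z * (R ^ (-(2 / 3) : ℝ) : ℝ)) *
    (sg x * FJ O (aT (z * (R ^ (-(2 / 3) : ℝ) : ℝ))) (bT (z * (R ^ (-(2 / 3) : ℝ) : ℝ))) j
        (ve (x, j - 1)) -
      sg x' * FJ O (aT (z * (R ^ (-(2 / 3) : ℝ) : ℝ))) (bT (z * (R ^ (-(2 / 3) : ℝ) : ℝ))) j'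
        (ve (x', j' - 1))))

/-- the form `hV` of `taylor_zero` -/
theorem VV_expand {O : Out w h} {R : ℝ} {j x j' x' : ℤ} {I : Finset Idx} {HH HH' : Idx → ℂ}
    (H : Expd O j x I HH) (H' : Expd O j' x' I HH') (z : ℂ) :
    VV O R j x j' x' z = (R ^ (-(2 / 3) : ℝ) : ℝ) *
      ∑ n ∈ I, mn n (z * (R ^ (-(2 / 3) : ℝ) : ℝ)) * (sg x * HH n - sg x' * HH' n) := by
  unfold VV
  rw [H, H', mul_sum, mul_sum, ← sum_sub_distrib, mul_sum]
  congr 1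
  refine sum_congr rfl fun n _ => ?_
  rw [mn_eq]
  ring

/-- for `t = exp (2 i u / 3)` the function `VV` is the normalised increment of `Hl - Hu` -/
theorem VV_pot {O : Out w h} (u : ℂ) (h1 : Complex.sin ((u + Real.pi) / 3) ≠ 0)
    (h2 : Complex.sin ((u + Real.pi / 2 + Real.pi) / 3) ≠ 0)
    (S : Same O (wa u) (wa (u + Real.pi / 2)))
    {Hl Hu : ℤ → ℤ → ℂ} (hl : Pot (FJ O (wa u) (wa (u + Real.pi / 2)) 0) Hl 0 w 0 h)
    (hu : Pot (FJ O (wa u) (wa (u + Real.pi / 2)) h) Hu 0 w (-1) (h - 1))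
    {R : ℝ} {z : ℂ} (ht : z * (R ^ (-(2 / 3) : ℝ) : ℝ) = Complex.exp (2 * Complex.I * u / 3))
    {j x j' x' : ℤ}
    (hj : 0 ≤ j ∧ j ≤ h ∧ j % 2 = 0) (hx : 0 ≤ x ∧ x ≤ w)
    (hj' : 0 ≤ j' ∧ j' ≤ h ∧ j' % 2 = 0) (hx' : 0 ≤ x' ∧ x' ≤ w) :
    VV O R j x j' x' z = (R ^ (-(2 / 3) : ℝ) : ℝ) *
      ((Hl x j - Hu x (j - 1)) - (Hl x' j' - Hu x' (j' - 1))) := by
  unfold VV
  rw [V_eq u h1 h2 S hl hu ht hj hx hj' hx']

/-- the value `z` of the point `u = φ₀ + i (log r + s)` -/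
lemma exp_point (φ s r R : ℝ) (hr : 0 < r) (hR : 0 < R) :
    ((Complex.exp ((2 / 3 * φ : ℝ) * Complex.I) * (((r / R) ^ (-(2 / 3) : ℝ) *
      Real.exp (-(2 / 3) * s) : ℝ) : ℂ)) * (R ^ (-(2 / 3) : ℝ) : ℝ) : ℂ) =
      Complex.exp (2 * Complex.I * ((φ : ℂ) + Complex.I * ((Real.log r + s : ℝ) : ℂ)) / 3) := by
  have e1 : ((r / R) ^ (-(2 / 3) : ℝ) * Real.exp (-(2 / 3) * s)) * (R ^ (-(2 / 3) : ℝ)) =
      Real.exp (-(2 / 3) * (Real.log r + s)) := by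
    rw [Real.div_rpow hr.le hR.le, Real.rpow_def_of_pos hr, mul_add, Real.exp_add]
    have : R ^ (-(2 / 3) : ℝ) ≠ 0 := (Real.rpow_pos_of_pos hR _).ne'
    field_simp
  rw [mul_assoc, ← Complex.ofReal_mul, e1, Complex.ofReal_exp, ← Complex.exp_add]
  congr 1
  push_cast
  linear_combination (-(2 / 3) * ((Real.log r : ℂ) + s)) * Complex.I_sq

end Pool.Agent.H40.R45
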