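import Mathlib
import Pool.Agent.Q1.M6b.HBdef

set_option autoImplicit false
open Finset

/-! # Chapter B (R45): `Tay45` from the bound of the coefficients and the expansion -/

namespace Pool.Agent.H40.R45

open Pool.Agent.Q1 Pool.Agent.H74.R45 Pool.Agent.H95.R45 Pool.Agent.H81.G1 Metric Filter Topology
open Pool.Agent.Q1.M6e (OFar Inn inc2)
open Pool.Agent.Q1.M6b.Gd Pool.Agent.Q1.M6b.AB Pool.Agent.Q1.M6b.Tay
open Pool.Agent.H33.Q1 Pool.Agent.H30.Mid Pool.Agent.H46.G1 Pool.Agent.H13.R45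

/-- the expansion of `FJ` at the corner `(x, j - 1)`, with the coefficients `HH` -/
def Exp45 : Prop :=
  ∀ (w h : ℤ) (O : Out w h) (p : ℤ × ℤ) (h0 : 0 ≤ p.2) (h1 : p.2 ≤ h) (j2 : p.2 % 2 = 0),
    0 < p.2 → p.2 < h → 0 < p.1 → p.1 < w →
    ∃ (N : ℕ) (y : Fin N × Dir) (I : Finset Idx) (H : Idx → ℂ), (N : ℤ) = w ∧
      H81.G1.inc (rp 0 (p.2 - 1)) y = true ∧ rcr 0 (p.2 - 1) y = ve (p.1, p.2 - 1) ∧
      Expd O p.2 p.1 I H ∧ ∀ n, ∃ σ, σ ⊆ CN h p.2 ∧ ‖H n‖ ≤ ‖HH O h0 h1 j2 y n.1 n.2.1 σ‖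

/-- a common index set -/
lemma Expd.cut {w h : ℤ} {O : Out w h} {j x : ℤ} {I I' : Finset Idx} {H : Idx → ℂ}
    (E : Expd O j x I H) (hI : I ⊆ I') :
    Expd O j x I' (fun n => if n ∈ I then H n else 0) := by
  intro t
  rw [E t, ← sum_subset hI]
  · exact sum_congr rfl fun n hn => by simp only [if_pos hn]
  · intro n _ hn
    simp only [if_neg hn, mul_zero]

lemma norm_sg' (k : ℤ) : ‖(H74.R45.sg k : ℂ)‖ ≤ 1 := by
  unfold H74.R45.sg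
  split_ifs <;> simp

/-- the data of `Tay45` -/
structure Dat where
  w : ℤ
  h : ℤ
  O : Out w h
  p : ℤ × ℤ
  q : ℤ × ℤ

theorem Tay45_of (hB : HB45) (hE : Exp45) : Tay45 := by
  intro η hη m ε hε
  classical
  -- the set of admissible data
  let S : ℕ → Set Dat := fun R => {v | 1 ≤ R ∧ Sc η R v.O ∧ v.p.2 % 2 = 0 ∧ v.q.2 % 2 = 0 ∧
    Inn v.w v.h (η * R) v.p ∧ Inn v.w v.h (η * R) v.q}
  have hpos : ∀ (R : ℕ), 1 ≤ R → ∀ (w h : ℤ) (p : ℤ × ℤ), Inn w h (η * R) p →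
      0 < p.2 ∧ p.2 < h ∧ 0 < p.1 ∧ p.1 < w := by
    intro R hR w h p hp
    have hRr : (0 : ℝ) < R := by exact_mod_cast hR
    have h1 : 0 < η * R := by positivity
    obtain ⟨p1, p2, p3, p4⟩ := hp
    refine ⟨?_, ?_, ?_, ?_⟩
    · have : (0 : ℝ) < (p.2 : ℝ) := by linarith
      exact_mod_cast this
    · have : (p.2 : ℝ) < (h : ℝ) := by linarith
      exact_mod_cast this
    · have : (0 : ℝ) < (p.1 : ℝ) := by linarith
      exact_mod_cast this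
    · have : (p.1 : ℝ) < (w : ℝ) := by linarith
      exact_mod_cast this
  -- the coefficients
  have key : ∀ (R : ℕ) (v : Dat), ∃ (I : Finset Idx) (H : Idx → ℂ), v ∈ S R →
      (∀ z : ℂ, VV v.O R v.p.2 v.p.1 v.q.2 v.q.1 z = ((R : ℝ) ^ (-(2 / 3) : ℝ) : ℝ) *
        ∑ n ∈ I, mn n (z * ((R : ℝ) ^ (-(2 / 3) : ℝ) : ℝ)) * H n) ∧
      ∀ n, ∃ (a b : ℝ), ‖H n‖ ≤ a + b ∧
        (∀ D : ℝ, (∀ p : ℤ × ℤ, Inn v.w v.h (η * R) p → ∀ (h0 : 0 ≤ p.2) (h1 : p.2 ≤ v.h)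
          (j2 : p.2 % 2 = 0) (N : ℕ), (N : ℤ) = v.w → ∀ y : Fin N × Dir,
          H81.G1.inc (rp 0 (p.2 - 1)) y = true → rcr 0 (p.2 - 1) y = ve (p.1, p.2 - 1) →
          ∀ σ, σ ⊆ CN v.h p.2 → ‖HH v.O h0 h1 j2 y n.1 n.2.1 σ‖ ≤ D) → a ≤ D ∧ b ≤ D) := by
    intro R v
    by_cases hv : v ∈ S R
    swap
    · exact ⟨∅, fun _ => 0, fun h => absurd h hv⟩
    obtain ⟨hR, hS, hp2, hq2, hp, hq⟩ := hv
    obtain ⟨p1, p2, p3, p4⟩ := hpos R hR v.w v.h v.p hp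
    obtain ⟨q1, q2, q3, q4⟩ := hpos R hR v.w v.h v.q hq
    obtain ⟨N, y, I, H, hN, hy, hyc, EX, hb⟩ := hE v.w v.h v.O v.p p1.le p2.le hp2 p1 p2 p3 p4
    obtain ⟨N', y', I', H', hN', hy', hyc', EX', hb'⟩ :=
      hE v.w v.h v.O v.q q1.le q2.le hq2 q1 q2 q3 q4
    refine ⟨I ∪ I', fun n => H74.R45.sg v.p.1 * (if n ∈ I then H n else 0) -
      H74.R45.sg v.q.1 * (if n ∈ I' then H' n else 0), fun _ => ⟨fun z => ?_, fun n => ?_⟩⟩
    · exact VV_expand (EX.cut subset_union_left) (EX'.cut subset_union_right) z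
    · obtain ⟨σ, hσ, hn⟩ := hb n
      obtain ⟨σ', hσ', hn'⟩ := hb' n
      refine ⟨‖HH v.O p1.le p2.le hp2 y n.1 n.2.1 σ‖, ‖HH v.O q1.le q2.le hq2 y' n.1 n.2.1 σ'‖,
        ?_, fun D hD => ⟨hD v.p hp p1.le p2.le hp2 N hN y hy hyc σ hσ,
          hD v.q hq q1.le q2.le hq2 N' hN' y' hy' hyc' σ' hσ'⟩⟩
      refine (norm_sub_le _ _).trans (add_le_add ?_ ?_)
      · rw [norm_mul]
        refine (mul_le_mul (norm_sg' _) (le_refl _) (norm_nonneg _) zero_le_one).trans ?_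
        rw [one_mul]
        split_ifs
        · exact hn
        · rw [norm_zero]; exact norm_nonneg _
      · rw [norm_mul]
        refine (mul_le_mul (norm_sg' _) (le_refl _) (norm_nonneg _) zero_le_one).trans ?_
        rw [one_mul]
        split_ifs
        · exact hn'
        · rw [norm_zero]; exact norm_nonneg _
  choose I H hIH using key
  have hmain := taylor_zero (deg := deg) deg_fin (mn := mn) (ρ := 1 / 2) (by norm_num) (B := BB)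
    mn_diff (fun n z hz => mn_le n hz) (R := fun j => (j : ℝ)) tendsto_natCast_atTop_atTop
    (S := S) (s := 2 / 5) (by norm_num) (I := I) (H := H) ?_
    (V := fun R v => VV v.O R v.p.2 v.p.1 v.q.2 v.q.1) ?_ m ε hε
  · obtain ⟨R0, h0⟩ := eventually_atTop.1 hmain
    refine ⟨max R0 1, fun R hR w h O hS p q hp hq ip iq => ?_⟩
    exact h0 R ((le_max_left _ _).trans hR) ⟨w, h, O, p, q⟩
      ⟨(le_max_right _ _).trans hR, hS, hp, hq, ip, iq⟩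
  · intro n
    obtain ⟨D, R0, hD⟩ := hB η hη n.1 n.2.1
    refine ⟨D + D, eventually_atTop.2 ⟨R0, fun R hR v hv => ?_⟩⟩
    obtain ⟨a, b, hab, hD'⟩ := (hIH R v hv).2 n
    obtain ⟨ha, hb⟩ := hD' (D * (R : ℝ) ^ ((2 / 3 : ℝ) * (n.1 + n.2.1) + 2 / 5))
      (fun p hp h0 h1 j2 N hN y hy hyc σ hσ =>
        hD R hR v.w v.h v.O hv.2.1 p hp h0 h1 j2 N hN y hy hyc σ hσ)
    have e : ((deg n : ℕ) : ℝ) = (n.1 : ℝ) + n.2.1 := by unfold deg; push_cast; rfl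
    rw [e, add_mul]
    exact hab.trans (add_le_add ha hb)
  · exact eventually_atTop.2 ⟨1, fun R _ v hv => Eventually.of_forall fun z => (hIH R v hv).1 z⟩

end Pool.Agent.H40.R45
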